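import Mathlib
import Pool.Agent.Helper56.TOF.Goals

/-!
PROJECT TOF, packet NU (helper13): the law of a sum of uniform variables.
-/

set_option autoImplicit false

open Set Filter Topology MeasureTheory

namespace Pool.Agent.Helper13.TOF

open Pool.Agent.Helper56.TOF

/-- the uniform law on `[0, h]` -/
noncomputable def ka (h : ℝ) : Measure ℝ := (ENNReal.ofReal h)⁻¹ • (volume.restrict (Icc (0 : ℝ) h))

theorem ka_prob (h : ℝ) (hh : 0 < h) : IsProbabilityMeasure (ka h) := by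
  refine ⟨?_⟩
  unfold ka
  rw [Measure.smul_apply, Measure.restrict_apply_univ, Real.volume_Icc, sub_zero, smul_eq_mul]
  exact ENNReal.inv_mul_cancel (by simpa using hh) ENNReal.ofReal_ne_top

theorem ka_supp (h : ℝ) : ∀ᵐ t ∂(ka h), t ∈ Icc (0 : ℝ) h := by
  unfold ka
  exact Measure.ae_smul_measure (ae_restrict_mem measurableSet_Icc) _

theorem nu_succ (h : ℝ) (n : ℕ) : nu h (n + 1) =
    Measure.map (fun v : ℝ × ℝ => v.1 + v.2) ((nu h n).prod (ka h)) := rfl

theorem meas_add : Measurable (fun v : ℝ × ℝ => v.1 + v.2) := measurable_fst.add measurable_snd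

theorem nu_prob (h : ℝ) (hh : 0 < h) : ∀ n, IsProbabilityMeasure (nu h n)
  | 0 => by
    change IsProbabilityMeasure (Measure.dirac (1 : ℝ))
    infer_instance
  | n + 1 => by
    have h1 := nu_prob h hh n
    have h2 := ka_prob h hh
    rw [nu_succ]
    exact Measure.isProbabilityMeasure_map meas_add.aemeasurable

theorem prod_supp (h : ℝ) (hh : 0 < h) (n : ℕ) (ih : ∀ᵐ α ∂(nu h n), α ∈ Icc (1 : ℝ) (1 + n * h)) :
    ∀ᵐ v ∂((nu h n).prod (ka h)), v.1 ∈ Icc (1 : ℝ) (1 + n * h) ∧ v.2 ∈ Icc (0 : ℝ) h := by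
  have h1 := nu_prob h hh n
  have h2 := ka_prob h hh
  have a1 : ∀ᵐ v ∂((nu h n).prod (ka h)), v.1 ∈ Icc (1 : ℝ) (1 + n * h) :=
    Measure.quasiMeasurePreserving_fst.ae ih
  have a2 : ∀ᵐ v ∂((nu h n).prod (ka h)), v.2 ∈ Icc (0 : ℝ) h :=
    Measure.quasiMeasurePreserving_snd.ae (ka_supp h)
  filter_upwards [a1, a2] with v b1 b2
  exact ⟨b1, b2⟩

theorem nu_supp (h : ℝ) (hh : 0 < h) : ∀ n : ℕ, ∀ᵐ α ∂(nu h n), α ∈ Icc (1 : ℝ) (1 + n * h)
  | 0 => by
    change ∀ᵐ α ∂(Measure.dirac (1 : ℝ)), α ∈ Icc (1 : ℝ) (1 + ((0 : ℕ) : ℝ) * h)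
    refine (ae_dirac_iff (p := fun α : ℝ => α ∈ Icc (1 : ℝ) (1 + ((0 : ℕ) : ℝ) * h)) measurableSet_Icc).mpr ?_
    simp
  | n + 1 => by
    have ih := nu_supp h hh n
    rw [nu_succ]
    refine (ae_map_iff (p := fun α : ℝ => α ∈ Icc (1 : ℝ) (1 + ((n + 1 : ℕ) : ℝ) * h))
      meas_add.aemeasurable measurableSet_Icc).mpr ?_
    filter_upwards [prod_supp h hh n ih] with v hv
    obtain ⟨⟨b1, b2⟩, b3, b4⟩ := hv
    refine ⟨by linarith, ?_⟩
    push_cast
    linarith

theorem av_cont (h : ℝ) (f : ℝ → ℝ) (hh : 0 < h) (hf : ContinuousOn f (Ioi 0)) :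
    ContinuousOn (Av h f) (Ioi 0) := by
  intro a0 ha0
  apply ContinuousAt.continuousWithinAt
  have ha : 0 < a0 / 2 := half_pos ha0
  have hg : Continuous (fun x : ℝ => f (max x (a0 / 2))) := by
    refine hf.comp_continuous (continuous_id.max continuous_const) ?_
    intro x
    exact lt_of_lt_of_le ha (le_max_right _ _)
  have hc : Continuous (fun α : ℝ => (∫ t in (0 : ℝ)..h, f (max (α + t) (a0 / 2))) / h) := by
    refine Continuous.div_const ?_ h
    refine intervalIntegral.continuous_parametric_intervalIntegral_of_continuous' ?_ 0 h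
    exact hg.comp (continuous_fst.add continuous_snd)
  refine hc.continuousAt.congr ?_
  have hev : ∀ᶠ α in 𝓝 a0, a0 / 2 < α := lt_mem_nhds (half_lt_self ha0)
  filter_upwards [hev] with α hα
  unfold Av
  congr 1
  refine intervalIntegral.integral_congr ?_
  intro t ht
  rw [uIcc_of_le hh.le] at ht
  have : max (α + t) (a0 / 2) = α + t := max_eq_left (by linarith [ht.1])
  simp only [this]

theorem step (h : ℝ) (hh : 0 < h) (n : ℕ) (f : ℝ → ℝ) (hf : ContinuousOn f (Ioi 0)) :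
    ∫ α, f α ∂(nu h (n + 1)) = ∫ α, Av h f α ∂(nu h n) := by
  have p1 := nu_prob h hh n
  have p2 := ka_prob h hh
  have p3 := nu_prob h hh (n + 1)
  set M : ℝ := 1 + ((n + 1 : ℕ) : ℝ) * h with hM
  have hM1 : 1 ≤ M := by
    rw [hM]
    have : 0 ≤ ((n + 1 : ℕ) : ℝ) * h := by positivity
    linarith
  set g : ℝ → ℝ := fun x => f (max 1 (min x M)) with hgd
  have hg : Continuous g := by
    refine hf.comp_continuous (continuous_const.max (continuous_id.min continuous_const)) ?_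
    intro x
    exact lt_of_lt_of_le (one_pos : (0 : ℝ) < 1) (le_max_left _ _)
  have hgf : ∀ x ∈ Icc (1 : ℝ) M, g x = f x := by
    intro x hx
    rw [hgd]
    simp only
    rw [min_eq_left hx.2, max_eq_right hx.1]
  obtain ⟨B, hB⟩ : ∃ B : ℝ, ∀ x, ‖g x‖ ≤ B := by
    have hcpt : IsCompact (Icc (1 : ℝ) M) := isCompact_Icc
    have hfc : ContinuousOn f (Icc (1 : ℝ) M) := hf.mono (fun x hx => lt_of_lt_of_le (one_pos : (0 : ℝ) < 1) hx.1)
    obtain ⟨B, hB⟩ := hcpt.exists_bound_of_continuousOn hfc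
    refine ⟨B, fun x => hB _ ⟨le_max_left _ _, max_le hM1 (min_le_right _ _)⟩⟩
  have e1 : ∫ α, f α ∂(nu h (n + 1)) = ∫ α, g α ∂(nu h (n + 1)) := by
    refine integral_congr_ae ?_
    filter_upwards [nu_supp h hh (n + 1)] with x hx
    exact (hgf x hx).symm
  have e2 : ∫ α, g α ∂(nu h (n + 1)) = ∫ v, g (v.1 + v.2) ∂((nu h n).prod (ka h)) := by
    rw [nu_succ]
    exact integral_map meas_add.aemeasurable hg.aestronglyMeasurable
  have hint : Integrable (fun v : ℝ × ℝ => g (v.1 + v.2)) ((nu h n).prod (ka h)) := by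
    refine Integrable.of_bound (hg.comp (continuous_fst.add continuous_snd)).aestronglyMeasurable B ?_
    exact Eventually.of_forall (fun v => hB _)
  have e3 : ∫ v, g (v.1 + v.2) ∂((nu h n).prod (ka h)) = ∫ a, ∫ t, g (a + t) ∂(ka h) ∂(nu h n) :=
    integral_prod _ hint
  rw [e1, e2, e3]
  refine integral_congr_ae ?_
  filter_upwards [nu_supp h hh n] with a ha
  have e4 : ∫ t, g (a + t) ∂(ka h) = ∫ t, f (a + t) ∂(ka h) := by
    refine integral_congr_ae ?_
    filter_upwards [ka_supp h] with t ht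
    refine hgf _ ⟨by linarith [ha.1, ht.1], ?_⟩
    rw [hM]
    push_cast
    linarith [ha.2, ht.2]
  rw [e4]
  unfold ka Av
  rw [integral_smul_measure, intervalIntegral.integral_of_le hh.le, integral_Icc_eq_integral_Ioc,
    ENNReal.toReal_inv, ENNReal.toReal_ofReal hh.le, smul_eq_mul, div_eq_inv_mul]

theorem main (h : ℝ) (hh : 0 < h) : ∀ (n : ℕ) (f : ℝ → ℝ), ContinuousOn f (Ioi 0) →
    ∫ α, f α ∂(nu h n) = (Av h)^[n] f 1
  | 0, f, _ => by
    change ∫ α, f α ∂(Measure.dirac (1 : ℝ)) = f 1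
    exact integral_dirac f 1
  | n + 1, f, hf => by
    rw [step h hh n f hf, main h hh n (Av h f) (av_cont h f hh hf), Function.iterate_succ_apply]

/-- packet NU -/
theorem gNU : StmtNU := by
  intro h n hh
  exact ⟨nu_prob h hh n, nu_supp h hh n, main h hh n⟩

end Pool.Agent.Helper13.TOF
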